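import Pool.Agent.H24.CL.Targets

/-!
# The critical Vinogradov mean value up to one logarithm, all degrees: definitions (helper31)

On top of the definitions of helper24 (`Pool.Agent.H24.CL.Defs`).
-/

set_option autoImplicit false

open Finset MeasureTheory

namespace Pool.Agent.H31.CK

open Pool.Agent.H24.CL

open Classical in
/-- the positions `b` for which the image of the coset `z + H k q r` meets `W` -/
noncomputable def Bs {k : ℕ} (q r : ℕ) (W : Set (X k)) (z : X k) : Finset ℕ :=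
  (range q).filter (fun b => ∃ h ∈ H k q r, phi q b (z + h) ∈ W)

/-- the images of `a + H k q r` at the position `b` -/
noncomputable def Im (k q r : ℕ) (a : X k) (b : ℕ) : Finset (X k) :=
  open Classical in (HF k q r).image (fun h => phi q b (a + h))

open Classical in
/-- the alive points of the column `b` over the coset `a + H k q r` -/
noncomputable def Co (k q r : ℕ) (W : Set (X k)) (a : X k) (b : ℕ) : Finset (X k) :=
  (Im k q r a b).filter (fun v => v ∈ W)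

/-- A chain of classes with labels. A level is either rich (`τ < n j`, label `1`) or few
(`n j ≤ τ`), and then the label `R j` is the largest `r` for which the coset `z + H k q r` has at
most `ρ τ` positions. -/
structure IsLab (k q m L : ℕ) (T ρ τ t₀ : ℝ) (W : ℕ → Set (X k)) (A n : ℕ → ℝ) (R : ℕ → ℕ) :
    Prop where
  chain : IsChain k q m L T ρ t₀ W A n
  R_rg : ∀ j < m, 1 ≤ R j ∧ R j ≤ k
  lab : ∀ j < m, (τ < n j ∧ R j = 1) ∨ (n j ≤ τ ∧ ∀ z ∈ W j,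
    ((Bs q (R j) (W (j + 1)) z).card : ℝ) ≤ ρ * τ ∧
    (R j < k → ρ * τ < ((Bs q (R j + 1) (W (j + 1)) z).card : ℝ)))

/-- Data of the levels `0, …, k - 1` which are used for one step. -/
structure Lev (k q : ℕ) (W : ℕ → Set (X k)) (G n : ℕ → ℝ) (R : ℕ → ℕ) (ρ₁ : ℝ) : Prop where
  meas : ∀ l < k, MeasurableSet (W l)
  G1 : ∀ l < k, 1 ≤ G l
  n1 : ∀ l < k, 1 ≤ n l ∧ n l ≤ q
  R1 : ∀ l < k, 1 ≤ R l ∧ R l ≤ k
  rho : 1 ≤ ρ₁
  car : ∀ l, l + 1 < k → Car q (W l) (W (l + 1)) (n l)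
  lin : ∀ l < k, Cnt (Ln k q) (W l) (G l)
  pha : ∀ l < k, Cnt (H k q 1) (W l) ((Nat.factorial k : ℝ) * G l ^ k)
  lab : ∀ l, l + 1 < k → R l = 1 ∨ ∀ z ∈ W l, ((Bs q (R l) (W (l + 1)) z).card : ℝ) ≤ ρ₁

/-- cost of the nodes of the levels `r, …, k - 1` -/
noncomputable def gc (k : ℕ) (G : ℕ → ℝ) (r : ℕ) : ℝ := ∏ l ∈ Ico r k, G l ^ (k - l)

/-- number of the recorded positions at the level `l`, frame `r` -/
def tl (k : ℕ) (R : ℕ → ℕ) (r l : ℕ) : ℕ := min (k - r) (k - R l - l)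

/-- cost of the positions of the paths, frame `r` -/
noncomputable def pc (k q : ℕ) (n : ℕ → ℝ) (R : ℕ → ℕ) (r : ℕ) : ℝ :=
  ∏ l ∈ Ico 1 (k - 1), ((q : ℝ) / n l) ^ tl k R r l

/-- value of the derivative of `∑ w_i X^(i+1)` -/
def D1 {k q : ℕ} (w : Fin k → ZMod q) (b : ZMod q) : ZMod q :=
  ∑ i : Fin k, ((i.val + 1 : ℕ) : ZMod q) * b ^ i.val * w i

/-- half of the value of the second derivative -/
def D2 {k q : ℕ} (w : Fin k → ZMod q) (b : ZMod q) : ZMod q :=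
  ∑ i : Fin k, ((Nat.choose (i.val + 1) 2 : ℕ) : ZMod q) * b ^ (i.val - 1) * w i

/-- `∑_(l = r)^(k-1) (k - l) g (j + l)` -/
noncomputable def gs (k : ℕ) (g : ℕ → ℝ) (r j : ℕ) : ℝ :=
  ∑ l ∈ Ico r k, ((k : ℝ) - l) * g (j + l)

/-- `∑_(l = 1)^(k-2) min (k - r, k - R_(j+l) - l) p (j + l)` -/
noncomputable def ps (k : ℕ) (p : ℕ → ℝ) (R : ℕ → ℕ) (r j : ℕ) : ℝ :=
  ∑ l ∈ Ico 1 (k - 1), ((min (k - r) (k - R (j + l) - l) : ℕ) : ℝ) * p (j + l)

/-- the payoffs `x` which the four step inequalities give at the level `j`; `few` is the set of the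
few levels -/
def OptK (k : ℕ) (g p : ℕ → ℝ) (R : ℕ → ℕ) (few : ℕ → Prop) (kap : ℝ) (j : ℕ) (x : ℝ) : Prop :=
  (¬ few j ∧ x ≤ (KN k : ℝ) * (g j + p j) - k * g j - k * p j - gs k g 1 j - ps k p R 1 j) ∨
  (g (j + 1) + 2 * p j ≤ 1 - kap ∧
    x ≤ (KN k : ℝ) * (g j + p j) - k * g j - ((k : ℝ) - 1) * p j - gs k g 2 j - ps k p R 2 j) ∨
  (g (j + 1) + 2 * p j ≤ 1 - kap ∧ k * g (j + 1) + p j ≤ 1 - kap ∧
    x ≤ (KN k : ℝ) * (g j + p j) - k * g j - g (j + 1) - ((k : ℝ) - 3) - k * p j - gs k g 3 j -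
      ps k p R 3 j) ∨
  (few j ∧ ∃ r : ℕ, r = min (R j + 1) k ∧
    x ≤ (KN k : ℝ) * (g j + p j) - 1 -
      ((KN k : ℝ) - ((k : ℝ) - r) * ((k : ℝ) - r + 1) / 2) - ((k : ℝ) - r) - gs k g r j -
      ps k p R r j)

end Pool.Agent.H31.CK
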