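import Pool.Agent.H31.CK.Defs

/-!
# The critical Vinogradov mean value up to one logarithm, all degrees: targets (helper31)

Every `T_X` is a proposition to be proved in a module of its own. Paper: E21_ALLK.md.
-/

set_option autoImplicit false

open Finset MeasureTheory

namespace Pool.Agent.H31.CK

open Pool.Agent.H24.CL

/-! ## D. The step inequalities -/

/-- CH: chains and torsion. -/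
def T_CH : Prop :=
  ∀ (k q : ℕ), 1 ≤ q →
    (∀ (r : ℕ) (c : List ℕ) (γ : X k), γ ∈ H k q (r + c.length) → Ch q c γ ∈ H k q r) ∧
    (∀ (c : List ℕ) (γ : X k), γ ∈ H k q c.length → Ch q c γ = 0) ∧
    (∀ (c : List ℕ) (γ : X k), 1 ≤ c.length → γ ∈ H k q (c.length + 1) → Ch q c γ ∈ Ln k q) ∧
    (∀ (c c' : List ℕ) (γ : X k), Ch q (c ++ c') γ = Ch q c' (Ch q c γ)) ∧
    (∀ r r' : ℕ, r ≤ r' → H k q r ≤ H k q r')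

/-- DG: interpolation of one digit. -/
def T_DG : Prop :=
  ∀ (k q : ℕ), q.Prime → k < q → ∀ (r j b₁ : ℕ) (γ : X k) (D : Finset ℕ), 1 ≤ r → r < j → j ≤ k →
    b₁ < q → γ ∈ H k q j → (∃ h ∈ H k q r, phi q b₁ γ = phi q b₁ h) →
    (∀ b ∈ D, b < q ∧ b ≠ b₁ ∧ ∃ c : List ℕ, c.length + 2 = j ∧ Ch q (b :: c) γ = 0) →
    k + 1 ≤ D.card + j → γ ∈ H k q (j - 1)

/-- KR: the kernel of `phi q b` inside `H k q r`. -/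
def T_KR : Prop :=
  ∀ (k q b r : ℕ), 1 ≤ q → r ≤ k → ∀ Y : Finset (X k), (∀ y ∈ Y, ∀ y' ∈ Y, y - y' ∈ H k q r ∧
    phi q b (y - y') = 0) →
    (Y.card : ℝ) ≤ (q : ℝ) ^ ((KN k : ℝ) - ((k : ℝ) - r) * ((k : ℝ) - r + 1) / 2)

/-- PP: a popular path with recorded positions. -/
def T_PP : Prop :=
  ∀ (ι : Type) (q L : ℕ) (Y : Finset ι) (V : ι → List ℕ → Prop) (rec : Finset ℕ) (m' : ℝ)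
    (n : ℕ → ℝ) (E : Finset ℕ), 1 ≤ L → 0 ≤ m' → (∀ l, 1 ≤ n l) → rec ⊆ Ico 1 L →
    (∀ y ∈ Y, ∃ D : Finset ℕ, D ⊆ range q ∧ (∀ b ∈ D, V y [b]) ∧ m' + E.card ≤ (D.card : ℝ)) →
    (∀ y ∈ Y, ∀ c : List ℕ, V y c → 1 ≤ c.length → c.length < L →
      ∃ D : Finset ℕ, D ⊆ range q ∧ (∀ b ∈ D, V y (c ++ [b])) ∧ n c.length ≤ (D.card : ℝ)) →
    ∃ (Y' : Finset ι) (p : ι → List ℕ) (b : ℕ), Y' ⊆ Y ∧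
      (∀ y ∈ Y', b < q ∧ b ∉ E ∧ (p y).length = L ∧ (p y)[0]? = some b ∧ (∀ d ∈ p y, d < q) ∧
        (∀ l, 1 ≤ l → l ≤ L → V y ((p y).take l))) ∧
      (∀ l ∈ rec, ∀ y ∈ Y', ∀ y' ∈ Y', (p y)[l]? = (p y')[l]?) ∧
      (Y.card : ℝ) * m' * ∏ l ∈ rec, n l ≤ (Y'.card : ℝ) * (q : ℝ) ^ (1 + rec.card)

/-- FC: the final count in a fixed frame `r`; the path `i` has length `k - i`, serves the digits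
`j ≤ k + 1 - i`, and its position at the level `l` is recorded iff `i + R l + l ≤ k`. -/
def T_FC : Prop :=
  ∀ (k q : ℕ), q.Prime → k < q → ∀ (r : ℕ), 1 ≤ r → r ≤ k → ∀ (W : ℕ → Set (X k)) (G : ℕ → ℝ)
    (R : ℕ → ℕ) (ρ₁ : ℝ) (b₁ : ℕ) (Y : Finset (X k)) (hd : ℕ → ℕ) (p : ℕ → X k → List ℕ),
    1 ≤ ρ₁ → b₁ < q → (∀ l < k, 1 ≤ G l) → (∀ l < k, 1 ≤ R l) →
    (∀ l, r ≤ l → l < k → Cnt (Ln k q) (W l) (G l)) →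
    (∀ l, 1 ≤ l → l + 1 < k → R l = 1 ∨
      ∀ z ∈ W l, ((Bs q (R l) (W (l + 1)) z).card : ℝ) ≤ ρ₁) →
    (∀ y ∈ Y, ∀ y' ∈ Y, y - y' ∈ H k q k ∧ (y ≠ y' → y - y' ∉ H k q r) ∧
      ∃ h ∈ H k q r, phi q b₁ (y - y') = phi q b₁ h) →
    (∀ i, 1 ≤ i → i + r ≤ k → hd i < q ∧ hd i ≠ b₁ ∧ ∀ i', 1 ≤ i' → i' < i → hd i' ≠ hd i) →
    (∀ i, 1 ≤ i → i + r ≤ k → ∀ y ∈ Y, (p i y).length = k - i ∧ (p i y)[0]? = some (hd i) ∧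
      (∀ d ∈ p i y, d < q) ∧ ∃ h ∈ H k q r,
        ∀ l, 1 ≤ l → l ≤ k - i → Ch q ((p i y).take l) (y + h) ∈ W l) →
    (∀ i l, 1 ≤ i → i + r ≤ k → 1 ≤ l → l < k - i → i + R l + l ≤ k →
      ∀ y ∈ Y, ∀ y' ∈ Y, (p i y)[l]? = (p i y')[l]?) →
    (Y.card : ℝ) ≤ ρ₁ ^ (k ^ 2) * gc k G r

/-- ZR: the number of the cosets of `H k q r` over a given cell. -/
def T_ZR : Prop :=
  ∀ (k q : ℕ), q.Prime → k < q → 2 ≤ k → ∀ (W : ℕ → Set (X k)) (G n : ℕ → ℝ) (R : ℕ → ℕ)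
    (ρ₁ : ℝ), Lev k q W G n R ρ₁ → ∀ (r : ℕ) (m₀ : ℝ) (b₁ : ℕ) (Y : Finset (X k)),
    1 ≤ r → r ≤ k → 4 * (k : ℝ) ≤ m₀ → b₁ < q →
    (∀ y ∈ Y, m₀ ≤ ((Bs q r (W 1) y).card : ℝ)) →
    (∀ y ∈ Y, ∀ y' ∈ Y, y - y' ∈ H k q k ∧ (y ≠ y' → y - y' ∉ H k q r) ∧
      ∃ h ∈ H k q r, phi q b₁ (y - y') = phi q b₁ h) →
    (Y.card : ℝ) ≤ 2 ^ k * ρ₁ ^ (k ^ 2) * ((q : ℝ) / m₀) ^ (k - r) * gc k G r * pc k q n R r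

/-- FR: the frame principle. -/
def T_FR : Prop :=
  ∀ (k q r : ℕ), 1 ≤ q → 1 ≤ r → r ≤ k → ∀ (W₀ W₁ : Set (X k)) (c₀ Z : ℝ),
    MeasurableSet W₀ → MeasurableSet W₁ → 0 ≤ c₀ → 0 ≤ Z →
    (∀ (a : X k) (S : Finset (X k)), (∀ y ∈ S, y ∈ W₀ ∧ y - a ∈ H k q r) →
      c₀ * (S.card : ℝ) ≤ ∑ b ∈ Bs q r W₁ a, ((Co k q r W₁ a b).card : ℝ)) →
    (∀ b < q, ∀ Y : Finset (X k), (∀ y ∈ Y, (∃ h ∈ H k q r, y + h ∈ W₀) ∧ b ∈ Bs q r W₁ y) →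
      (∀ y ∈ Y, ∀ y' ∈ Y, y - y' ∈ H k q k ∧ (y ≠ y' → y - y' ∉ H k q r) ∧
        ∃ h ∈ H k q r, phi q b (y - y') = phi q b h) → (Y.card : ℝ) ≤ Z) →
    c₀ * ((q : ℝ) ^ (KN k) * volume.real W₀) ≤ Z * (q : ℝ) * volume.real W₁

/-- JK: Johnson's bound in a coset of `H k q 2`. -/
def T_JK : Prop :=
  ∀ (k q : ℕ), q.Prime → k < q → 2 ≤ k → ∀ (W₁ : Set (X k)) (n₀ G₁ : ℝ) (a : X k)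
    (Y : Finset (X k)), 1 ≤ n₀ → 1 ≤ G₁ → Cnt (Ln k q) W₁ G₁ → 4 * k * q * G₁ ≤ n₀ ^ 2 →
    (∀ y ∈ Y, y - a ∈ H k q 2 ∧ n₀ ≤ ((pos q W₁ y).card : ℝ)) →
    (∀ y ∈ Y, ∀ y' ∈ Y, y ≠ y' → y - y' ∉ H k q 1) →
    n₀ * (Y.card : ℝ) ≤ 2 * ∑ b ∈ Bs q 2 W₁ a, ((Co k q 2 W₁ a b).card : ℝ)

/-- LK: Lemma S in all degrees. -/
def T_LK : Prop :=
  ∀ (k q : ℕ) [Fact q.Prime], 3 ≤ k → k < q → ∀ (S : ZMod q → Finset (ZMod q × ZMod q))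
    (Y : Finset (Fin k → ZMod q)) (n : ℝ), 0 < n →
    (∑ b, ((S b).card : ℝ)) * 2 ≤ n * (q : ℝ) ^ 2 →
    (∀ w ∈ Y, ∃ D : Finset (ZMod q), n ≤ (D.card : ℝ) ∧ ∀ b ∈ D, (D1 w b, D2 w b) ∈ S b) →
      (Y.card : ℝ) * n ^ 2 ≤ 4 * k * (q : ℝ) ^ (k - 2) * ∑ b, ((S b).card : ℝ)

/-- S3: the number of the alive cosets of `H k q 2` in a coset of `H k q 3`. -/
def T_S3 : Prop :=
  ∀ (k q : ℕ), q.Prime → k < q → 3 ≤ k → ∀ (W₁ : Set (X k)) (n₀ Φ₁ : ℝ) (a : X k)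
    (Y : Finset (X k)), 1 ≤ n₀ → 1 ≤ Φ₁ → Cnt (H k q 1) W₁ Φ₁ → 2 * Φ₁ ≤ n₀ →
    (∀ y ∈ Y, y - a ∈ H k q 3 ∧ n₀ ≤ ((Bs q 2 W₁ y).card : ℝ)) →
    (∀ y ∈ Y, ∀ y' ∈ Y, y ≠ y' → y - y' ∉ H k q 2) →
    (Y.card : ℝ) * n₀ ^ 2 ≤
      4 * k * (q : ℝ) ^ (k - 2) * ∑ b ∈ Bs q 3 W₁ a, ((Co k q 3 W₁ a b).card : ℝ)

/-- N1: the general step. -/
def T_N1 : Prop :=
  ∀ k : ℕ, 3 ≤ k → ∃ C : ℝ, 1 ≤ C ∧ ∀ (q : ℕ), q.Prime → k < q → ∀ (W : ℕ → Set (X k))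
    (G n : ℕ → ℝ) (R : ℕ → ℕ) (ρ₁ : ℝ), Lev k q W G n R ρ₁ → 4 * (k : ℝ) ≤ n 0 →
      (q : ℝ) ^ (KN k) * volume.real (W 0) ≤ C * ρ₁ ^ (k ^ 2) * G 0 ^ k * ((q : ℝ) / n 0) ^ k *
        gc k G 1 * pc k q n R 1 * volume.real (W 1)

/-- N2: the step with Johnson's bound. -/
def T_N2 : Prop :=
  ∀ k : ℕ, 3 ≤ k → ∃ C : ℝ, 1 ≤ C ∧ ∀ (q : ℕ), q.Prime → k < q → ∀ (W : ℕ → Set (X k))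
    (G n : ℕ → ℝ) (R : ℕ → ℕ) (ρ₁ : ℝ), Lev k q W G n R ρ₁ → 4 * (k : ℝ) ≤ n 0 →
      4 * k * q * G 1 ≤ n 0 ^ 2 →
      (q : ℝ) ^ (KN k) * volume.real (W 0) ≤ C * ρ₁ ^ (k ^ 2) * G 0 ^ k *
        ((q : ℝ) / n 0) ^ (k - 1) * gc k G 2 * pc k q n R 2 * volume.real (W 1)

/-- N3: the step with Lemma S. -/
def T_N3 : Prop :=
  ∀ k : ℕ, 3 ≤ k → ∃ C : ℝ, 1 ≤ C ∧ ∀ (q : ℕ), q.Prime → k < q → ∀ (W : ℕ → Set (X k))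
    (G n : ℕ → ℝ) (R : ℕ → ℕ) (ρ₁ : ℝ), Lev k q W G n R ρ₁ → 4 * (k : ℝ) ≤ n 0 →
      4 * k * q * G 1 ≤ n 0 ^ 2 → 2 * ((Nat.factorial k : ℝ) * G 1 ^ k) ≤ n 0 →
      (q : ℝ) ^ (KN k) * volume.real (W 0) ≤ C * ρ₁ ^ (k ^ 2) * G 0 ^ k * G 1 *
        (q : ℝ) ^ (k - 3) * ((q : ℝ) / n 0) ^ k * gc k G 3 * pc k q n R 3 * volume.real (W 1)

/-- N4: the step of a few level. -/
def T_N4 : Prop :=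
  ∀ k : ℕ, 3 ≤ k → ∃ C : ℝ, 1 ≤ C ∧ ∀ (q : ℕ), q.Prime → k < q → ∀ (W : ℕ → Set (X k))
    (G n : ℕ → ℝ) (R : ℕ → ℕ) (ρ₁ : ℝ), Lev k q W G n R ρ₁ → ∀ r : ℕ, r = min (R 0 + 1) k →
      (R 0 < k → ∀ z ∈ W 0, 4 * (k : ℝ) ≤ ((Bs q (R 0 + 1) (W 1) z).card : ℝ)) →
      (q : ℝ) ^ (KN k) * volume.real (W 0) ≤ C * ρ₁ ^ (k ^ 2) *
        (q : ℝ) ^ (1 + ((KN k : ℝ) - ((k : ℝ) - r) * ((k : ℝ) - r + 1) / 2) + ((k : ℝ) - r)) *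
        gc k G r * pc k q n R r * volume.real (W 1)

/-! ## C. Labelled classes -/

/-- TL: every alive point lies in the first set of one of boundedly many labelled chains, or some
descendant is too high. -/
def T_TL : Prop :=
  ∀ (k m : ℕ) (ε : ℝ), 1 ≤ k → 0 < ε → ∃ (TT : ℕ) (T : ℝ), 1 ≤ T ∧ ∀ (q L : ℕ) (τ t₀ : ℝ),
    2 ≤ q → 1 ≤ L → 1 ≤ τ → 0 < t₀ →
    ∃ (W : Fin TT → ℕ → Set (X k)) (A n : Fin TT → ℕ → ℝ) (R : Fin TT → ℕ → ℕ),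
      (∀ c, IsLab k q m L T ((q : ℝ) ^ ε) τ t₀ (W c) (A c) (n c) (R c)) ∧
      {a : X k | t₀ ≤ ‖u (q ^ m * L) a‖} ⊆
        (⋃ c, W c 0) ∪ Etop k q m L (t₀ * (q : ℝ) ^ m)

/-! ## E. The game -/

/-- GA: the game. -/
def T_GA : Prop :=
  ∀ k : ℕ, 3 ≤ k → ∀ c₁ : ℝ, 0 < c₁ → c₁ ≤ 1 → ∃ (δ D₀ : ℝ), 0 < δ ∧ ∀ D : ℝ, D₀ ≤ D →
    ∃ kap : ℝ, 0 < kap ∧ ∀ (m : ℕ) (g p : ℕ → ℝ) (R : ℕ → ℕ) (few : ℕ → Prop),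
    (m : ℝ) ≤ ((KN k : ℝ) + 4) * D → (∀ j, 0 ≤ g j ∧ g j ≤ 1) → (∀ j, 0 ≤ p j ∧ p j ≤ 1) →
    (∀ j < m, p j ≤ g j + kap) → (∀ j, 1 ≤ R j ∧ R j ≤ k) → (∀ j, ¬ few j → R j = 1) →
    (∀ j, few j → 1 - kap ≤ p j) → D - 4 ≤ ∑ j ∈ range m, (1 - g j) → (∃ l < k, c₁ ≤ g l) →
    ∃ (n' : ℕ) (x : ℕ → ℝ), n' + k ≤ m + 1 ∧ (∀ j < n', OptK k g p R few kap j (x j)) ∧
      δ ≤ ∑ j ∈ range n', x j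

/-- BD: labelled chains with growth in the first `k` windows are rare. -/
def T_BD : Prop :=
  ∀ k : ℕ, 3 ≤ k → ∀ c₁ : ℝ, 0 < c₁ → c₁ ≤ 1 → ∃ (δ D₀ : ℝ), 0 < δ ∧ ∀ D : ℝ, D₀ ≤ D →
    ∃ kap : ℝ, 0 < kap ∧ kap ≤ 1 / 2 ∧ ∃ ε₀ : ℝ, 0 < ε₀ ∧
    ∀ (ε T : ℝ) (m : ℕ), 0 < ε → ε ≤ ε₀ → 1 ≤ T → (m : ℝ) ≤ ((KN k : ℝ) + 4) * D → ∃ q₀ : ℕ,
    ∀ (q L : ℕ) (t₀ : ℝ) (W : ℕ → Set (X k)) (A n : ℕ → ℝ) (R : ℕ → ℕ), q₀ ≤ q → q.Prime →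
      1 ≤ L → 0 < t₀ →
      (q : ℝ) ^ (D - 1) ≤ ((q : ℝ) ^ m * L) * t₀ ^ 2 →
      ((q : ℝ) ^ m * L) * t₀ ^ 2 ≤ (q : ℝ) ^ (D + 1) →
      (((KN k : ℝ) + 2) * (D + 1) ≤ m ∨ L ≤ q ^ 2) →
      IsLab k q m L T ((q : ℝ) ^ ε) ((q : ℝ) ^ kap) t₀ W A n R →
      (∃ l < k, (q : ℝ) ^ c₁ ≤ Gr q T ((q : ℝ) ^ ε) A n l) →
      ((q : ℝ) ^ m * L) ^ (KN k) * t₀ ^ (2 * KN k) * volume.real (W 0) ≤ (q : ℝ) ^ (-δ)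

/-- GC: a good chain has few points in every orbit. -/
def T_GC : Prop :=
  ∀ (k : ℕ) (c₁ ε T : ℝ) (m : ℕ), 3 ≤ k → 0 < c₁ → c₁ ≤ 1 / (20 * (k : ℝ) ^ 2) → 0 < ε →
    ε ≤ c₁ → 1 ≤ T → k ≤ m → ∃ q₀ : ℕ,
    ∀ (q L : ℕ) (t₀ : ℝ) (W : ℕ → Set (X k)) (A n : ℕ → ℝ), q₀ ≤ q → q.Prime → 1 ≤ L → 0 < t₀ →
      IsChain k q m L T ((q : ℝ) ^ ε) t₀ W A n →
      (∀ l < k, Gr q T ((q : ℝ) ^ ε) A n l ≤ (q : ℝ) ^ c₁) →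
      Cnt (H k q k) (W 0) ((q : ℝ) ^ (10 * (k : ℝ) ^ 2 * c₁))

/-! ## F. The recursion -/

/-- SE: one step of the recursion for lengths divisible by `q^m`. -/
def T_SE : Prop :=
  ∀ k : ℕ, 3 ≤ k → ∃ (δ D₀ : ℝ), 0 < δ ∧ ∀ D : ℝ, D₀ ≤ D → ∃ q₀ : ℕ, ∀ (q m L : ℕ) (M : ℝ),
    q₀ ≤ q → q.Prime → 1 ≤ L → 1 ≤ M → k + 1 ≤ m → (m : ℝ) ≤ ((KN k : ℝ) + 4) * D →
    (((KN k : ℝ) + 2) * (D + 1) ≤ m ∨ L ≤ q ^ 2) →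
    (q : ℝ) ^ (D - 1) ≤ ((q : ℝ) ^ m * L) / (2 * M) →
    ((q : ℝ) ^ m * L) / (2 * M) ≤ (q : ℝ) ^ (D + 1) →
    SM k M (q ^ m * L) ≤ SM k M (q ^ (m - 1) * L) + (q : ℝ) ^ (-δ)

/-- OX: one step of the recursion. -/
def T_OX : Prop :=
  ∀ k : ℕ, 3 ≤ k → ∃ (c c' y₀ C : ℝ), 0 < c ∧ c < 1 ∧ 0 < c' ∧ 0 ≤ C ∧ ∀ (M : ℝ) (N : ℕ),
    1 ≤ M → y₀ ≤ Real.log (N / M) → ∃ N' : ℕ, N' < N ∧ M ≤ N' ∧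
      Real.log (N' / M) ≤ (1 - c) * Real.log (N / M) ∧
      SM k M N ≤ SM k M N' + C * Real.exp (-(c' * Real.log (N / M)))

/-- IT: the recursion is summed. -/
def T_IT : Prop :=
  ∀ k : ℕ, 3 ≤ k → ∃ C : ℝ, 0 ≤ C ∧ ∀ (M : ℝ) (N : ℕ), 1 ≤ M → M ≤ N → SM k M N ≤ C

/-- FI: the theorem. -/
def T_FI : Prop :=
  ∀ k : ℕ, 3 ≤ k → ∃ C : ℝ, ∀ N : ℕ, 1 ≤ N →
    ((Pool.Agent.H22.VM.sols (KN k) k N).card : ℝ) ≤ C * (N : ℝ) ^ (KN k) * (1 + Real.log N)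

end Pool.Agent.H31.CK
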